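import Pool.Agent.Helper74.PC.Dense
import Pool.Agent.H36.Sim

/-!
The deterministic algorithm: test the strings with few ones and the strings with few zeros.
-/

namespace Pool.Agent.Helper74.PC

open Pool.Agent.H38.NP Pool.Agent.H36.Sim

/-- all lists of length `t` with entries in `l` -/
def tuples : ℕ → List ℕ → List (List ℕ)
  | 0, _ => [[]]
  | t + 1, l => l.flatMap fun a => (tuples t l).map fun s => a :: s

theorem mem_tuples {t : ℕ} {l s : List ℕ} : s ∈ tuples t l ↔ s.length = t ∧ ∀ a ∈ s, a ∈ l := by
  induction t generalizing s with
  | zero => 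
    simp only [tuples, List.mem_singleton]
    constructor
    · rintro rfl; simp
    · rintro ⟨h, -⟩; exact List.length_eq_zero_iff.1 h
  | succ t ih =>
    simp only [tuples, List.mem_flatMap, List.mem_map, ih]
    constructor
    · rintro ⟨a, ha, s', ⟨h1, h2⟩, rfl⟩
      refine ⟨by simp [h1], ?_⟩
      intro b hb
      rcases List.mem_cons.1 hb with rfl | hb
      · exact ha
      · exact h2 b hb
    · rintro ⟨h1, h2⟩
      cases s with
      | nil => simp at h1
      | cons a s =>
        exact ⟨a, h2 a (by simp), s, ⟨by simpa using h1, fun b hb => h2 b (by simp [hb])⟩, rfl⟩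

theorem pt_tuples {α : Type} [Enc α] (t : ℕ) {l : α → List ℕ} (hl : PT l) :
    PT fun a => tuples t (l a) := by
  induction t with
  | zero => exact PT.const _
  | succ t ih =>
    refine PT.flatMap (f := fun a n => (tuples t (l a)).map fun s => n :: s) ?_ hl
    refine PT.map (f := fun (p : α × ℕ) s => p.2 :: s) (by fun_prop) ?_
    exact ih.comp (g := fun p : α × ℕ => p.1) (by fun_prop)

/-- membership in a set of pairs that is in P, as a `PT` test -/
theorem pt_test {R : Set (List Bool)} (hR : InP R) : ∃ T : Bits → List Bool → Bool,
    (PT fun p : Bits × List Bool => T p.1 p.2) ∧ ∀ x r, T x r = true ↔ pair x.val r ∈ R := by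
  obtain ⟨f, hf, h⟩ := hR
  refine ⟨fun x r => decide ((⟨f (enc (x, Bits.mk r))⟩ : Bits) = ⟨[true]⟩), ?_, fun x r => ?_⟩
  · have h1 : PT fun p : Bits × List Bool => raw (p.1, Bits.mk p.2) := by fun_prop
    have h2 : PT fun p : Bits × List Bool => (⟨f (enc (p.1, Bits.mk p.2))⟩ : Bits) :=
      (pt_of_polyTime hf).comp h1
    exact PT.eq h2 (PT.const _)
  · rw [decide_eq_true_eq, h, Bits.mk.injEq]
    rfl

/-- the candidate coin strings of length `m` -/
theorem inP_of_few (L R : Set (List Bool)) (hR : InP R) (p : Polynomial ℕ) (t : ℕ)
    (h0 : ∀ x ∉ L, ∀ r : Fin (p.eval x.length) → Bool, pair x (List.ofFn r) ∉ R)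
    (h1 : ∀ x ∈ L, ∃ r : Fin (p.eval x.length) → Bool, pair x (List.ofFn r) ∈ R ∧
      ((ones r).card ≤ t ∨ (zeros r).card ≤ t)) : InP L := by
  obtain ⟨T, hT, hTR⟩ := pt_test hR
  refine inP_of_pt (fun x => (tuples t (List.range (p.eval (sz x) + 1))).any fun S =>
    T x ((List.range (p.eval (sz x))).map fun i => S.any fun a => a == i) ||
    T x ((List.range (p.eval (sz x))).map fun i => !(S.any fun a => a == i))) ?_ ?_
  · have hm : PT fun x : Bits => p.eval (sz x) := PT.polyEval p (by fun_prop)
    have hm' : PT fun q : Bits × List ℕ => p.eval (sz q.1) :=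
      hm.comp (g := fun q : Bits × List ℕ => q.1) (by fun_prop)
    refine PT.any (f := fun x S => T x ((List.range (p.eval (sz x))).map fun i =>
      S.any fun a => a == i) || T x ((List.range (p.eval (sz x))).map fun i =>
      !(S.any fun a => a == i))) ?_ (pt_tuples t (PT.range (hm.add (PT.const 1))))
    refine PT.or ?_ ?_
    · refine hT.comp (g := fun q : Bits × List ℕ => (q.1, (List.range (p.eval (sz q.1))).map fun i =>
        q.2.any fun a => a == i)) (PT.mk (by fun_prop) ?_)
      exact PT.map (f := fun (q : Bits × List ℕ) i => q.2.any fun a => a == i) (by fun_prop)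
        hm'.range
    · refine hT.comp (g := fun q : Bits × List ℕ => (q.1, (List.range (p.eval (sz q.1))).map fun i =>
        !(q.2.any fun a => a == i))) (PT.mk (by fun_prop) ?_)
      exact PT.map (f := fun (q : Bits × List ℕ) i => !(q.2.any fun a => a == i)) (by fun_prop)
        hm'.range
  · rintro ⟨x⟩
    have hsz : sz (⟨x⟩ : Bits) = x.length := rfl
    simp only [hsz, List.any_eq_true, Bool.or_eq_true, hTR, mem_tuples]
    have hlist : ∀ g : ℕ → Bool, (List.range (p.eval x.length)).map g =
        List.ofFn fun j : Fin (p.eval x.length) => g j.1 := by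
      intro g
      apply List.ext_getElem
      · simp
      · intro i hi hi'
        simp
    constructor
    · intro hx
      obtain ⟨r, hr, hcard⟩ := h1 x hx
      have pad : ∀ A : Finset (Fin (p.eval x.length)), A.card ≤ t →
          ∃ S : List ℕ, (S.length = t ∧ ∀ a ∈ S, a ∈ List.range (p.eval x.length + 1)) ∧
            ∀ j : Fin (p.eval x.length), (S.any fun a => a == j.1) = decide (j ∈ A) := by
        intro A hA
        refine ⟨A.toList.map (fun j => j.1) ++ List.replicate (t - A.card) (p.eval x.length),
          ⟨by simp; omega, ?_⟩, fun j => ?_⟩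
        · intro a ha
          rw [List.mem_range]
          rcases List.mem_append.1 ha with ha | ha
          · obtain ⟨j, -, rfl⟩ := List.mem_map.1 ha
            have := j.2
            omega
          · rw [List.eq_of_mem_replicate ha]; omega
        · rw [Bool.eq_iff_iff, List.any_eq_true, decide_eq_true_eq]
          constructor
          · rintro ⟨a, ha, e⟩
            have e : a = j.1 := by simpa using e
            rcases List.mem_append.1 ha with ha | ha
            · obtain ⟨j', hj', e'⟩ := List.mem_map.1 ha
              have : j' = j := Fin.ext (e'.trans e)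
              subst this
              simpa using hj'
            · have h3 := List.eq_of_mem_replicate ha
              have h2 := j.2
              omega
          · intro hj
            exact ⟨j.1, List.mem_append_left _ (List.mem_map.2 ⟨j, by simpa using hj, rfl⟩),
              by simp⟩
      rcases hcard with hc | hc
      · obtain ⟨S, hS, e⟩ := pad _ hc
        refine ⟨S, hS, Or.inl ?_⟩
        rw [hlist]
        convert hr using 3
        funext j
        rw [e j]
        cases h : r j <;> simp [h]
      · obtain ⟨S, hS, e⟩ := pad _ hc
        refine ⟨S, hS, Or.inr ?_⟩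
        rw [hlist]
        convert hr using 3
        funext j
        rw [e j]
        cases h : r j <;> simp [h]
    · rintro ⟨S, -, h | h⟩
      · by_contra hx
        rw [hlist] at h
        exact h0 x hx _ h
      · by_contra hx
        rw [hlist] at h
        exact h0 x hx _ h

end Pool.Agent.Helper74.PC
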