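import Mathlib

/-!
Coordinatewise Boolean operations on sets of bit strings: every operation other than a
projection or a negated projection yields a constant, `∧`, `∨`, majority or minority.
-/

namespace Pool.Agent.Helper74.PC

/-- Boolean operations of arity `k`. -/
abbrev Op (k : ℕ) := (Fin k → Bool) → Bool

/-- The set `P` of strings of length `m` is closed under `f`, applied coordinatewise. -/
def ClosedUnder {m k : ℕ} (f : Op k) (P : Set (Fin m → Bool)) : Prop :=
  ∀ g : Fin k → Fin m → Bool, (∀ a, g a ∈ P) → (fun j => f fun a => g a j) ∈ P

/-- `f` is a projection `x_i` or a negated projection `¬ x_i`. -/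
def IsPM {k : ℕ} (f : Op k) : Prop := ∃ i, (∀ v, f v = v i) ∨ (∀ v, f v = !v i)

variable {m k : ℕ}

/-- closure under a ternary operation -/
def C3 (t : Bool → Bool → Bool → Bool) (P : Set (Fin m → Bool)) : Prop :=
  ∀ a ∈ P, ∀ b ∈ P, ∀ c ∈ P, (fun j => t (a j) (b j) (c j)) ∈ P

theorem C3.congr {t t' : Bool → Bool → Bool → Bool} {P : Set (Fin m → Bool)} (h : C3 t P)
    (e : ∀ x y z, t x y z = t' x y z) : C3 t' P := by
  intro a ha b hb c hc
  have := h a ha b hb c hc
  simpa only [e] using this

theorem C3.comp {t t1 t2 t3 : Bool → Bool → Bool → Bool} {P : Set (Fin m → Bool)} (h : C3 t P)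
    (h1 : C3 t1 P) (h2 : C3 t2 P) (h3 : C3 t3 P) :
    C3 (fun x y z => t (t1 x y z) (t2 x y z) (t3 x y z)) P :=
  fun a ha b hb c hc => h _ (h1 a ha b hb c hc) _ (h2 a ha b hb c hc) _ (h3 a ha b hb c hc)

theorem C3.p1 {P : Set (Fin m → Bool)} : C3 (fun x _ _ => x) P := fun _ ha _ _ _ _ => ha
theorem C3.p2 {P : Set (Fin m → Bool)} : C3 (fun _ y _ => y) P := fun _ _ _ hb _ _ => hb
theorem C3.p3 {P : Set (Fin m → Bool)} : C3 (fun _ _ z => z) P := fun _ _ _ _ _ hc => hc

theorem C3.minor {f : Op k} {P : Set (Fin m → Bool)} (h : ClosedUnder f P) (φ : Fin k → Fin 3) :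
    C3 (fun x y z => f fun a => ![x, y, z] (φ a)) P := by
  intro a ha b hb c hc
  have := h (fun i => ![a, b, c] (φ i)) (by
    intro i
    generalize φ i = q
    fin_cases q
    · exact ha
    · exact hb
    · exact hc)
  convert this using 1
  funext j
  refine congrArg f (funext fun i => ?_)
  generalize φ i = q
  fin_cases q <;> rfl

/-- binary minor -/
theorem C3.minor2 {f : Op k} {P : Set (Fin m → Bool)} (h : ClosedUnder f P) (v : Fin k → Bool)
    {b : Bool → Bool → Bool} (h00 : b false false = f fun _ => false)
    (h11 : b true true = f fun _ => true) (h10 : b true false = f v)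
    (h01 : b false true = f fun a => !v a) : C3 (fun x y _ => b x y) P := by
  refine (C3.minor h fun a => if v a then 0 else 1).congr fun x y z => ?_
  cases x <;> cases y
  · rw [h00]; congr 1; funext a; cases v a <;> rfl
  · rw [h01]; congr 1; funext a; cases v a <;> rfl
  · rw [h10]; congr 1; funext a; cases v a <;> rfl
  · rw [h11]; congr 1; funext a; cases v a <;> rfl

abbrev tAnd : Bool → Bool → Bool → Bool := fun x y _ => x && y
abbrev tOr : Bool → Bool → Bool → Bool := fun x y _ => x || y
abbrev tMaj : Bool → Bool → Bool → Bool := fun x y z => (x && y) || ((x && z) || (y && z))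
abbrev tMin : Bool → Bool → Bool → Bool := fun x y z => xor (xor x y) z

/-- self-dual idempotent ternary operations -/
theorem tern {t : Bool → Bool → Bool → Bool} {P : Set (Fin m → Bool)} (h : C3 t P)
    (h0 : t false false false = false) (hd : ∀ x y z, t (!x) (!y) (!z) = !t x y z)
    (hn : ¬ ((t true false false = true ∧ t false true false = false ∧ t false false true = false) ∨
      (t true false false = false ∧ t false true false = true ∧ t false false true = false) ∨
      (t true false false = false ∧ t false true false = false ∧ t false false true = true))) :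
    C3 tMaj P ∨ C3 tMin P := by
  have h1 : t true true true = true := by simpa [h0] using hd false false false
  have hA := hd true false false
  have hB := hd false true false
  have hC := hd false false true
  simp only [Bool.not_true, Bool.not_false] at hA hB hC
  rcases eA : t true false false with _ | _ <;> rcases eB : t false true false with _ | _ <;>
    rcases eC : t false false true with _ | _ <;> rw [eA] at hA <;> rw [eB] at hB <;>
    rw [eC] at hC <;> simp only [eA, eB, eC] at hn
  · left
    exact h.congr fun x y z => by
      cases x <;> cases y <;> cases z <;> simp [h0, h1, hA, hB, hC, eA, eB, eC]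
  · simp at hn
  · simp at hn
  · -- t 100 = 0, t 010 = t 001 = 1
    left
    have hp : C3 (fun x y z => t y x z) P :=
      (h.comp C3.p2 C3.p1 C3.p3).congr fun _ _ _ => rfl
    exact (hp.comp C3.p1 hp C3.p3).congr fun x y z => by
      cases x <;> cases y <;> cases z <;> simp [h0, h1, hA, hB, hC, eA, eB, eC]
  · simp at hn
  · left
    have hp : C3 (fun x y z => t x y z) P :=
      (h.comp C3.p1 C3.p2 C3.p3).congr fun _ _ _ => rfl
    exact (hp.comp C3.p1 hp C3.p3).congr fun x y z => by
      cases x <;> cases y <;> cases z <;> simp [h0, h1, hA, hB, hC, eA, eB, eC]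
  · left
    have hp : C3 (fun x y z => t x z y) P :=
      (h.comp C3.p1 C3.p3 C3.p2).congr fun _ _ _ => rfl
    exact (hp.comp C3.p1 hp C3.p3).congr fun x y z => by
      cases x <;> cases y <;> cases z <;> simp [h0, h1, hA, hB, hC, eA, eB, eC]
  · right
    exact h.congr fun x y z => by
      cases x <;> cases y <;> cases z <;> simp [h0, h1, hA, hB, hC, eA, eB, eC]

theorem tern_minor {f : Op k} {P : Set (Fin m → Bool)} (h : ClosedUnder f P)
    (h0 : f (fun _ => false) = false) (hd : ∀ v, f (fun a => !v a) = !f v) (c : Fin k → Fin 3)
    (hn : ¬ ((f (fun a => decide (c a = 0)) = true ∧ f (fun a => decide (c a = 1)) = false ∧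
        f (fun a => decide (c a = 2)) = false) ∨
      (f (fun a => decide (c a = 0)) = false ∧ f (fun a => decide (c a = 1)) = true ∧
        f (fun a => decide (c a = 2)) = false) ∨
      (f (fun a => decide (c a = 0)) = false ∧ f (fun a => decide (c a = 1)) = false ∧
        f (fun a => decide (c a = 2)) = true))) :
    C3 tMaj P ∨ C3 tMin P := by
  have e0 : (fun a => decide (c a = 0)) = fun a => ![true, false, false] (c a) := by
    funext a; generalize c a = q; fin_cases q <;> rfl
  have e1 : (fun a => decide (c a = 1)) = fun a => ![false, true, false] (c a) := by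
    funext a; generalize c a = q; fin_cases q <;> rfl
  have e2 : (fun a => decide (c a = 2)) = fun a => ![false, false, true] (c a) := by
    funext a; generalize c a = q; fin_cases q <;> rfl
  rw [e0, e1, e2] at hn
  refine tern (C3.minor h c) ?_ ?_ hn
  · refine Eq.trans (congrArg f (funext fun a => ?_)) h0
    generalize c a = q; fin_cases q <;> rfl
  · intro x y z
    rw [← hd]
    refine congrArg f (funext fun a => ?_)
    generalize c a = q; fin_cases q <;> rfl

/-- idempotent case -/
theorem clone_idem {f : Op k} {P : Set (Fin m → Bool)} (h : ClosedUnder f P)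
    (h0 : f (fun _ => false) = false) (h1 : f (fun _ => true) = true)
    (hn : ¬ ∃ i, ∀ v, f v = v i) :
    C3 tAnd P ∨ C3 tOr P ∨ C3 tMaj P ∨ C3 tMin P := by
  classical
  by_cases hd : ∀ v, f (fun a => !v a) = !f v
  swap
  · push Not at hd
    obtain ⟨v, hv⟩ := hd
    rcases e : f v with _ | _
    · left
      have e2 : f (fun a => !v a) = false := by
        rw [e] at hv; simpa using hv
      exact C3.minor2 h v (b := fun x y => x && y) (by simp [h0]) (by simp [h1]) (by simp [e])
        (by simp [e2])
    · right; left
      have e2 : f (fun a => !v a) = true := by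
        rw [e] at hv; simpa using hv
      exact C3.minor2 h v (b := fun x y => x || y) (by simp [h0]) (by simp [h1]) (by simp [e])
        (by simp [e2])
  right; right
  by_contra hcon
  apply hn
  -- exactly one of the three values is true, for all partitions
  have key : ∀ c : Fin k → Fin 3,
      ((f (fun a => decide (c a = 0)) = true ∧ f (fun a => decide (c a = 1)) = false ∧
        f (fun a => decide (c a = 2)) = false) ∨
      (f (fun a => decide (c a = 0)) = false ∧ f (fun a => decide (c a = 1)) = true ∧
        f (fun a => decide (c a = 2)) = false) ∨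
      (f (fun a => decide (c a = 0)) = false ∧ f (fun a => decide (c a = 1)) = false ∧
        f (fun a => decide (c a = 2)) = true)) := by
    intro c
    by_contra hc
    exact hcon (tern_minor h h0 hd c hc)
  have add : ∀ v w : Fin k → Bool, (∀ a, (v a && w a) = false) →
      f (fun a => v a || w a) = (f v || f w) := by
    intro v w hvw
    have hk := key fun a => if v a then 0 else if w a then 1 else 2
    have e0 : (fun a => decide ((if v a then (0 : Fin 3) else if w a then 1 else 2) = 0)) = v := by
      funext a; cases v a <;> cases w a <;> rfl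
    have e1 : (fun a => decide ((if v a then (0 : Fin 3) else if w a then 1 else 2) = 1)) = w := by
      funext a
      have := hvw a
      revert this
      cases v a <;> cases w a <;> simp
    have e2 : (fun a => decide ((if v a then (0 : Fin 3) else if w a then 1 else 2) = 2)) =
        fun a => !(v a || w a) := by
      funext a; cases v a <;> cases w a <;> rfl
    rw [e0, e1, e2, hd (fun a => v a || w a)] at hk
    rcases hk with ⟨a1, a2, a3⟩ | ⟨a1, a2, a3⟩ | ⟨a1, a2, a3⟩ <;> simp_all
  have hS : ∀ S : Finset (Fin k), f (fun a => decide (a ∈ S)) = true →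
      ∃ i, f (fun a => decide (a = i)) = true := by
    intro S
    induction S using Finset.induction_on with
    | empty => intro hS; simp [h0] at hS
    | insert i S hi ih =>
      intro hS
      have := add (fun a => decide (a = i)) (fun a => decide (a ∈ S)) (by
        intro a
        by_cases ha : a = i
        · subst ha; simp [hi]
        · simp [ha])
      have e : (fun a => decide (a = i) || decide (a ∈ S)) = fun a => decide (a ∈ insert i S) := by
        funext a; simp
      rw [e, hS] at this
      rcases hfi : f (fun a => decide (a = i)) with _ | _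
      · rw [hfi] at this
        exact ih (by simpa using this.symm)
      · exact ⟨i, hfi⟩
  obtain ⟨i, hi⟩ := hS Finset.univ (by simpa using h1)
  have hv1 : ∀ v : Fin k → Bool, v i = true → f v = true := by
    intro v hv
    have := add (fun a => decide (a = i)) (fun a => v a && !decide (a = i)) (by
      intro a
      by_cases ha : a = i <;> simp [ha])
    have e : (fun a => decide (a = i) || (v a && !decide (a = i))) = v := by
      funext a
      by_cases ha : a = i
      · subst ha; simp [hv]
      · simp [ha]
    rw [e, hi] at this
    simpa using this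
  refine ⟨i, fun v => ?_⟩
  rcases e : v i with _ | _
  · have := hv1 (fun a => !v a) (by simp [e])
    rw [hd] at this
    simpa using this
  · exact hv1 v e

/-- Every operation other than a projection or a negated projection yields one of six closures. -/
theorem clone {f : Op k} {P : Set (Fin m → Bool)} (h : ClosedUnder f P) (hne : P.Nonempty)
    (hn : ¬ IsPM f) :
    (∃ c : Bool, (fun _ => c) ∈ P) ∨ C3 tAnd P ∨ C3 tOr P ∨ C3 tMaj P ∨ C3 tMin P := by
  obtain ⟨g0, hg0⟩ := hne
  by_cases hc : ∃ c, ∀ v, f v = c
  · obtain ⟨c, hc⟩ := hc
    left
    refine ⟨c, ?_⟩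
    have := h (fun _ => g0) fun _ => hg0
    simpa [hc] using this
  right
  push Not at hc
  rcases h0 : f (fun _ => false) with _ | _ <;> rcases h1 : f (fun _ => true) with _ | _
  · -- f 0 = f 1 = 0
    obtain ⟨v, hv⟩ := hc false
    have hv : f v = true := by simpa using hv
    rcases hw : f (fun a => !v a) with _ | _
    · left
      have hb := C3.minor2 h v (b := fun x y => x && !y) (by simp [h0]) (by simp [h1])
        (by simp [hv]) (by simp [hw])
      exact (hb.comp C3.p1 hb C3.p3).congr fun x y z => by cases x <;> cases y <;> rfl
    · right; right; right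
      have hb := C3.minor2 h v (b := fun x y => xor x y) (by simp [h0]) (by simp [h1])
        (by simp [hv]) (by simp [hw])
      exact (hb.comp hb C3.p3 C3.p3).congr fun x y z => by cases x <;> cases y <;> cases z <;> rfl
  · -- idempotent
    exact clone_idem h h0 h1 fun ⟨i, hi⟩ => hn ⟨i, Or.inl hi⟩
  · -- f 0 = 1, f 1 = 0
    have hneg : C3 (fun x _ _ => !x) P := by
      refine (C3.minor h fun _ => 0).congr fun x y z => ?_
      cases x
      · simpa using h0
      · simpa using h1
    have h' : ClosedUnder (fun v => !f v) P := by
      intro g hg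
      have h2 := h g hg
      exact hneg _ h2 _ h2 _ h2
    exact clone_idem (f := fun v => !f v) h' (by simp [h0]) (by simp [h1]) fun ⟨i, hi⟩ =>
      hn ⟨i, Or.inr fun v => by rw [← hi v]; simp⟩
  · -- f 0 = f 1 = 1
    obtain ⟨v, hv⟩ := hc true
    have hv : f v = false := by simpa using hv
    rcases hw : f (fun a => !v a) with _ | _
    · right; right; right
      have hb := C3.minor2 h v (b := fun x y => !xor x y) (by simp [h0]) (by simp [h1])
        (by simp [hv]) (by simp [hw])
      exact (hb.comp hb C3.p3 C3.p3).congr fun x y z => by cases x <;> cases y <;> cases z <;> rfl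
    · right; left
      have hb := C3.minor2 h v (b := fun x y => !x || y) (by simp [h0]) (by simp [h1])
        (by simp [hv]) (by simp [hw])
      exact (hb.comp hb C3.p2 C3.p3).congr fun x y z => by cases x <;> cases y <;> rfl

end Pool.Agent.Helper74.PC
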