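import Pool.Agent.Helper74.PC.Clone

/-!
A dense set of bit strings that is closed under a constant, `∧`, `∨`, majority or minority
contains a string that has few ones or few zeros.
-/

namespace Pool.Agent.Helper74.PC

open Finset

variable {m k : ℕ}

theorem count {P : Set (Fin m → Bool)} (S : Finset (Fin m))
    (hinj : ∀ g ∈ P, ∀ g' ∈ P, (∀ j ∉ S, g j = g' j) → g = g') :
    P.ncard * 2 ^ S.card ≤ 2 ^ m := by
  classical
  let ρ : (Fin m → Bool) → ({j // j ∉ S} → Bool) := fun g j => g j.1
  have h1 : (ρ '' P).ncard = P.ncard := Set.InjOn.ncard_image (by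
    intro g hg g' hg' e
    exact hinj g hg g' hg' fun j hj => congrFun e ⟨j, hj⟩)
  have h2 : (ρ '' P).ncard ≤ Nat.card ({j // j ∉ S} → Bool) := by
    rw [← Set.ncard_univ]
    exact Set.ncard_le_ncard (Set.subset_univ _) (Set.toFinite _)
  have h3 : Nat.card ({j // j ∉ S} → Bool) = 2 ^ (m - S.card) := by
    rw [Nat.card_eq_fintype_card, Fintype.card_fun, Fintype.card_bool]
    congr 1
    rw [Fintype.card_subtype_compl]
    simp
  rw [h1, h3] at h2
  have h4 : S.card ≤ m := by simpa using S.card_le_univ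
  calc P.ncard * 2 ^ S.card ≤ 2 ^ (m - S.card) * 2 ^ S.card := Nat.mul_le_mul_right _ h2
    _ = 2 ^ m := by rw [← pow_add, Nat.sub_add_cancel h4]

/-- positions of ones -/
def ones (g : Fin m → Bool) : Finset (Fin m) := univ.filter fun j => g j = true
/-- positions of zeros -/
def zeros (g : Fin m → Bool) : Finset (Fin m) := univ.filter fun j => g j = false

@[simp] theorem mem_ones {g : Fin m → Bool} {j} : j ∈ ones g ↔ g j = true := by simp [ones]
@[simp] theorem mem_zeros {g : Fin m → Bool} {j} : j ∈ zeros g ↔ g j = false := by simp [zeros]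

theorem dense_and {P : Set (Fin m → Bool)} (h : C3 tAnd P) (hne : P.Nonempty) :
    ∃ g ∈ P, P.ncard * 2 ^ (ones g).card ≤ 2 ^ m := by
  obtain ⟨g0, hg0, hmin⟩ := Set.exists_min_image P (fun g => (ones g).card) (Set.toFinite P) hne
  have hle : ∀ g ∈ P, ∀ j, g0 j = true → g j = true := by
    intro g hg j hj
    have h1 := h g0 hg0 g hg g hg
    have h2 := hmin _ h1
    have h3 : ones (fun j => tAnd (g0 j) (g j) (g j)) ⊆ ones g0 := by
      intro i hi; simp at hi ⊢; exact hi.1
    have h4 := Finset.eq_of_subset_of_card_le h3 h2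
    have h5 : j ∈ ones g0 := by simpa using hj
    rw [← h4] at h5
    simp at h5; exact h5.2
  refine ⟨g0, hg0, count _ fun g hg g' hg' e => ?_⟩
  funext j
  by_cases hj : j ∈ ones g0
  · rw [mem_ones] at hj
    rw [hle g hg j hj, hle g' hg' j hj]
  · exact e j hj

theorem dense_or {P : Set (Fin m → Bool)} (h : C3 tOr P) (hne : P.Nonempty) :
    ∃ g ∈ P, P.ncard * 2 ^ (zeros g).card ≤ 2 ^ m := by
  obtain ⟨g0, hg0, hmin⟩ := Set.exists_min_image P (fun g => (zeros g).card) (Set.toFinite P) hne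
  have hle : ∀ g ∈ P, ∀ j, g0 j = false → g j = false := by
    intro g hg j hj
    have h1 := h g0 hg0 g hg g hg
    have h2 := hmin _ h1
    have h3 : zeros (fun j => tOr (g0 j) (g j) (g j)) ⊆ zeros g0 := by
      intro i hi; simp at hi ⊢; exact hi.1
    have h4 := Finset.eq_of_subset_of_card_le h3 h2
    have h5 : j ∈ zeros g0 := by simpa using hj
    rw [← h4] at h5
    simp at h5; exact h5.2
  refine ⟨g0, hg0, count _ fun g hg g' hg' e => ?_⟩
  funext j
  by_cases hj : j ∈ zeros g0
  · rw [mem_zeros] at hj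
    rw [hle g hg j hj, hle g' hg' j hj]
  · exact e j hj

theorem dense_min {P : Set (Fin m → Bool)} (h : C3 tMin P) (hne : P.Nonempty) :
    ∃ g ∈ P, P.ncard * 2 ^ (ones g).card ≤ 2 ^ m := by
  obtain ⟨g0, hg0, hmin⟩ := Set.exists_min_image P (fun g => (ones g).card) (Set.toFinite P) hne
  refine ⟨g0, hg0, count _ fun g hg g' hg' e => ?_⟩
  have h1 := h g0 hg0 g hg g' hg'
  have h2 := hmin _ h1
  have h3 : ones (fun j => tMin (g0 j) (g j) (g' j)) ⊆ ones g0 := by
    intro i hi
    by_contra hi'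
    have := e i hi'
    simp only [mem_ones] at hi hi'
    rw [this] at hi
    revert hi hi'
    cases g0 i <;> cases g' i <;> simp
  have h4 := Finset.eq_of_subset_of_card_le h3 h2
  funext j
  by_cases hj : j ∈ ones g0
  · have h5 := hj
    rw [← h4] at h5
    simp only [mem_ones] at h5 hj
    rw [hj] at h5
    revert h5
    cases g j <;> cases g' j <;> simp
  · exact e j hj

/-- Baker–Pixley for majority -/
theorem two_dec {P : Set (Fin m → Bool)} (h : C3 tMaj P) (hne : P.Nonempty) (p : Fin m → Bool)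
    (hp : ∀ i j, ∃ g ∈ P, g i = p i ∧ g j = p j) : p ∈ P := by
  have key : ∀ n, ∀ T : Finset (Fin m), T.card = n → ∃ g ∈ P, ∀ j ∈ T, g j = p j := by
    intro n
    induction n using Nat.strong_induction_on with
    | _ n ih =>
      intro T hT
      by_cases h3 : 2 < T.card
      · obtain ⟨a, ha, b, hb, c, hc, hab, hac, hbc⟩ := Finset.two_lt_card.1 h3
        obtain ⟨ga, hga, ea⟩ := ih (T.card - 1) (by omega) (T.erase a) (Finset.card_erase_of_mem ha)
        obtain ⟨gb, hgb, eb⟩ := ih (T.card - 1) (by omega) (T.erase b) (Finset.card_erase_of_mem hb)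
        obtain ⟨gc, hgc, ec⟩ := ih (T.card - 1) (by omega) (T.erase c) (Finset.card_erase_of_mem hc)
        refine ⟨_, h ga hga gb hgb gc hgc, fun j hj => ?_⟩
        have e1 : j ≠ a → ga j = p j := fun h => ea j (Finset.mem_erase.2 ⟨h, hj⟩)
        have e2 : j ≠ b → gb j = p j := fun h => eb j (Finset.mem_erase.2 ⟨h, hj⟩)
        have e3 : j ≠ c → gc j = p j := fun h => ec j (Finset.mem_erase.2 ⟨h, hj⟩)
        by_cases j1 : j = a
        · have j2 : j ≠ b := fun e => hab (j1 ▸ e)
          have j3 : j ≠ c := fun e => hac (j1 ▸ e)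
          simp only [e2 j2, e3 j3]
          cases ga j <;> cases p j <;> rfl
        · by_cases j2 : j = b
          · have j3 : j ≠ c := fun e => hbc (j2 ▸ e)
            simp only [e1 j1, e3 j3]
            cases gb j <;> cases p j <;> rfl
          · simp only [e1 j1, e2 j2]
            cases gc j <;> cases p j <;> rfl
      · have h4 : T.card = 0 ∨ T.card = 1 ∨ T.card = 2 := by omega
        rcases h4 with h4 | h4 | h4
        · obtain ⟨g, hg⟩ := hne
          rw [Finset.card_eq_zero] at h4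
          exact ⟨g, hg, by simp [h4]⟩
        · obtain ⟨i, rfl⟩ := Finset.card_eq_one.1 h4
          obtain ⟨g, hg, e, -⟩ := hp i i
          exact ⟨g, hg, by simpa using e⟩
        · obtain ⟨i, j, -, rfl⟩ := Finset.card_eq_two.1 h4
          obtain ⟨g, hg, e, e'⟩ := hp i j
          exact ⟨g, hg, by simp [e, e']⟩
  obtain ⟨g, hg, e⟩ := key _ univ rfl
  have : g = p := funext fun j => e j (mem_univ j)
  exact this ▸ hg

/-- either all pairs of coordinates outside a small set are free, or `P` is sparse -/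
theorem family (P : Set (Fin m → Bool)) (n : ℕ) :
    (∃ V : Finset (Fin m), V.card ≤ 2 * n ∧ ∀ i ∉ V, ∀ j ∉ V, i ≠ j → ∀ α β,
      ∃ g ∈ P, g i = α ∧ g j = β) ∨
    (∃ (V : Finset (Fin m)) (A : Finset (Fin m → Bool)), V.card ≤ 2 * n ∧ (∀ g ∈ P, g ∈ A) ∧
      A.card * 4 ^ n ≤ 3 ^ n * 2 ^ m ∧
      ∀ g g' : Fin m → Bool, (∀ j ∈ V, g j = g' j) → g ∈ A → g' ∈ A) := by
  classical
  induction n with
  | zero => exact Or.inr ⟨∅, univ, by simp, by simp, by simp, by simp⟩
  | succ n ih =>
    rcases ih with ⟨V, hV, h⟩ | ⟨V, A, hV, hP, hA, hl⟩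
    · exact Or.inl ⟨V, by omega, h⟩
    by_cases hc : ∀ i ∉ V, ∀ j ∉ V, i ≠ j → ∀ α β, ∃ g ∈ P, g i = α ∧ g j = β
    · exact Or.inl ⟨V, by omega, hc⟩
    push Not at hc
    obtain ⟨i, hi, j, hj, hij, α, β, hab⟩ := hc
    right
    refine ⟨insert i (insert j V), A.filter fun g => ¬ (g i = α ∧ g j = β), ?_, ?_, ?_, ?_⟩
    · have := Finset.card_insert_le i (insert j V)
      have := Finset.card_insert_le j V
      omega
    · intro g hg
      rw [mem_filter]
      exact ⟨hP g hg, fun h => hab g hg h.1 h.2⟩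
    · -- |A| ≤ 4 |B|
      let B := A.filter fun g => g i = α ∧ g j = β
      have hsum : B.card + (A.filter fun g => ¬ (g i = α ∧ g j = β)).card = A.card :=
        Finset.card_filter_add_card_filter_not (s := A) (fun g => g i = α ∧ g j = β)
      have hB : A.card ≤ 4 * B.card := by
        have h1 : A.card ≤ (B ×ˢ (univ : Finset (Bool × Bool))).card := by
          refine Finset.card_le_card_of_injOn
            (fun g => (Function.update (Function.update g i α) j β, (g i, g j))) ?_ ?_
          · intro g hg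
            simp only [coe_product, coe_univ, Set.mem_prod, Finset.mem_coe, Set.mem_univ, and_true]
            rw [mem_filter]
            refine ⟨hl g _ (fun l hlV => ?_) hg, ?_, ?_⟩
            · have h1 : l ≠ j := fun e => hj (e ▸ hlV)
              have h2 : l ≠ i := fun e => hi (e ▸ hlV)
              simp [Function.update_of_ne h1, Function.update_of_ne h2]
            · simp [Function.update_of_ne hij]
            · simp
          · intro g hg g' hg' e
            simp only [Prod.mk.injEq] at e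
            obtain ⟨e1, e2, e3⟩ := e
            funext l
            by_cases h1 : l = j
            · subst h1; exact e3
            · by_cases h2 : l = i
              · subst h2; exact e2
              · have := congrFun e1 l
                simpa [Function.update_of_ne h1, Function.update_of_ne h2] using this
        rw [Finset.card_product] at h1
        simp only [Finset.card_univ, Fintype.card_prod, Fintype.card_bool] at h1
        omega
      have h4 : 4 * (A.filter fun g => ¬ (g i = α ∧ g j = β)).card ≤ 3 * A.card := by omega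
      calc (A.filter fun g => ¬ (g i = α ∧ g j = β)).card * 4 ^ (n + 1)
          = (4 * (A.filter fun g => ¬ (g i = α ∧ g j = β)).card) * 4 ^ n := by ring
        _ ≤ 3 * A.card * 4 ^ n := Nat.mul_le_mul_right _ h4
        _ = 3 * (A.card * 4 ^ n) := by ring
        _ ≤ 3 * (3 ^ n * 2 ^ m) := Nat.mul_le_mul_left _ hA
        _ = 3 ^ (n + 1) * 2 ^ m := by ring
    · intro g g' e hg
      rw [mem_filter] at hg ⊢
      refine ⟨hl g g' (fun l hlV => e l (by simp [hlV])) hg.1, ?_⟩
      rw [← e i (by simp), ← e j (by simp)]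
      exact hg.2

theorem dense_maj {P : Set (Fin m → Bool)} (h : C3 tMaj P) (hne : P.Nonempty)
    (V : Finset (Fin m))
    (hV : ∀ i ∉ V, ∀ j ∉ V, i ≠ j → ∀ α β, ∃ g ∈ P, g i = α ∧ g j = β) :
    ∃ g ∈ P, ∃ s, (ones g).card ≤ V.card + s ∧ P.ncard * 2 ^ s ≤ 2 ^ m := by
  classical
  -- the largest class
  let cls : (Fin m → Bool) → (V → Bool) := fun g j => g j.1
  obtain ⟨σ, hσ⟩ : ∃ σ : V → Bool, P.ncard ≤ 2 ^ V.card * {g ∈ P | cls g = σ}.ncard := by
    by_contra hcon
    push Not at hcon
    have h1 : ∑ σ : V → Bool, {g ∈ P | cls g = σ}.ncard = P.ncard := by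
      have h2 : ∀ σ : V → Bool, {g ∈ P | cls g = σ}.ncard =
          ((Set.toFinite P).toFinset.filter fun g => cls g = σ).card := by
        intro σ
        rw [← Set.ncard_coe_finset]
        congr 1
        ext g
        simp only [Finset.coe_filter, Set.Finite.mem_toFinset, Set.mem_ofPred_eq]
      simp only [h2]
      rw [Set.ncard_eq_toFinset_card P (Set.toFinite P)]
      exact (Finset.card_eq_sum_card_fiberwise (f := cls) (t := univ) (by simp)).symm
    have h3 : ∑ σ : V → Bool, 2 ^ V.card * {g ∈ P | cls g = σ}.ncard <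
        ∑ _σ : V → Bool, P.ncard :=
      Finset.sum_lt_sum_of_nonempty univ_nonempty fun σ _ => hcon σ
    rw [← Finset.mul_sum, h1] at h3
    simp at h3
  set Q : Set (Fin m → Bool) := {g ∈ P | cls g = σ} with hQ
  have hQne : Q.Nonempty := by
    rw [Set.nonempty_iff_ne_empty]
    intro e
    rw [e] at hσ
    simp at hσ
    exact hne.ne_empty ((Set.ncard_eq_zero (Set.toFinite P)).1 hσ)
  obtain ⟨q, hq⟩ := hQne
  let p : Fin m → Bool := fun j => decide (∀ g ∈ Q, g j = true)
  have hpq : ∀ j, ∃ g ∈ Q, g j = p j := by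
    intro j
    by_cases hj : ∀ g ∈ Q, g j = true
    · exact ⟨q, hq, by simp only [p]; rw [decide_eq_true hj]; exact hj q hq⟩
    · have : p j = false := decide_eq_false hj
      push Not at hj
      obtain ⟨g, hg, hgj⟩ := hj
      exact ⟨g, hg, by rw [this]; simpa using hgj⟩
  have hV1 : ∀ g ∈ Q, ∀ g' ∈ Q, ∀ j ∈ V, g j = g' j := by
    intro g hg g' hg' j hj
    have h1 : cls g = cls g' := hg.2.trans hg'.2.symm
    exact congrFun h1 ⟨j, hj⟩
  have hVp : ∀ g ∈ Q, ∀ j ∈ V, g j = p j := by
    intro g hg j hj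
    obtain ⟨g', hg', e⟩ := hpq j
    rw [← e]; exact hV1 g hg g' hg' j hj
  have hp : p ∈ P := by
    refine two_dec h hne p fun i j => ?_
    by_cases hi : i ∈ V
    · obtain ⟨g, hg, e⟩ := hpq j
      exact ⟨g, hg.1, hVp g hg i hi, e⟩
    · by_cases hj : j ∈ V
      · obtain ⟨g, hg, e⟩ := hpq i
        exact ⟨g, hg.1, e, hVp g hg j hj⟩
      · by_cases hij : i = j
        · subst hij
          obtain ⟨g, hg, e⟩ := hpq i
          exact ⟨g, hg.1, e, e⟩
        · exact hV i hi j hj hij _ _
  refine ⟨p, hp, (ones p \ V).card, ?_, ?_⟩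
  · have h1 : ones p ⊆ V ∪ (ones p \ V) := by
      intro j hj
      by_cases h : j ∈ V <;> simp [h]
      simpa using hj
    exact (Finset.card_le_card h1).trans (Finset.card_union_le _ _)
  · have h1 : Q.ncard * 2 ^ (V ∪ (ones p \ V)).card ≤ 2 ^ m := by
      refine count _ fun g hg g' hg' e => ?_
      funext j
      by_cases hj : j ∈ V
      · exact hV1 g hg g' hg' j hj
      · by_cases hj' : j ∈ ones p
        · have h2 : p j = true := by simpa using hj'
          have h3 : ∀ g ∈ Q, g j = true := of_decide_eq_true h2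
          rw [h3 g hg, h3 g' hg']
        · exact e j (by simp [hj]; simpa using hj')
    rw [Finset.card_union_of_disjoint Finset.disjoint_sdiff, pow_add] at h1
    calc P.ncard * 2 ^ (ones p \ V).card ≤ 2 ^ V.card * Q.ncard * 2 ^ (ones p \ V).card :=
          Nat.mul_le_mul_right _ hσ
      _ = Q.ncard * (2 ^ V.card * 2 ^ (ones p \ V).card) := by ring
      _ ≤ 2 ^ m := h1

/-- the density lemma -/
theorem dense (δ : ℝ) (hδ : 0 < δ) : ∃ t : ℕ, ∀ (m : ℕ) (P : Set (Fin m → Bool)),
    δ * 2 ^ m ≤ P.ncard →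
    ((∃ c : Bool, (fun _ => c) ∈ P) ∨ C3 tAnd P ∨ C3 tOr P ∨ C3 tMaj P ∨ C3 tMin P) →
    ∃ g ∈ P, (ones g).card ≤ t ∨ (zeros g).card ≤ t := by
  obtain ⟨N, hN⟩ := exists_pow_lt_of_lt_one hδ (by norm_num : (3 / 4 : ℝ) < 1)
  obtain ⟨K, hK⟩ := exists_pow_lt_of_lt_one hδ (by norm_num : (1 / 2 : ℝ) < 1)
  have hs : ∀ (m : ℕ) (P : Set (Fin m → Bool)), δ * 2 ^ m ≤ P.ncard → ∀ s,
      P.ncard * 2 ^ s ≤ 2 ^ m → s ≤ K := by
    intro m P hP s hs
    by_contra hcon
    push Not at hcon
    have h1 : (P.ncard : ℝ) * 2 ^ s ≤ 2 ^ m := by exact_mod_cast hs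
    have h2 : δ * 2 ^ m * 2 ^ s ≤ 2 ^ m := (mul_le_mul_of_nonneg_right hP (by positivity)).trans h1
    have h3 : δ * 2 ^ s ≤ 1 := by
      have h4 : (0 : ℝ) < 2 ^ m := by positivity
      have : (δ * 2 ^ s) * 2 ^ m ≤ 1 * 2 ^ m := by linarith
      exact le_of_mul_le_mul_right this h4
    have h5 : (1 / 2 : ℝ) ^ K * 2 ^ s < δ * 2 ^ s := mul_lt_mul_of_pos_right hK (by positivity)
    have h6 : (1 : ℝ) ≤ (1 / 2 : ℝ) ^ K * 2 ^ s := by
      rw [one_div, inv_pow, inv_mul_eq_div, one_le_div (by positivity)]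
      exact pow_le_pow_right₀ (by norm_num) hcon.le
    linarith
  refine ⟨2 * N + K, fun m P hP hc => ?_⟩
  have hpos : 0 < P.ncard := by
    have : (0 : ℝ) < P.ncard := lt_of_lt_of_le (by positivity) hP
    exact_mod_cast this
  have hne : P.Nonempty := by
    rw [Set.nonempty_iff_ne_empty]
    rintro rfl
    simp at hpos
  rcases hc with ⟨c, hc⟩ | hc | hc | hc | hc
  · refine ⟨_, hc, ?_⟩
    cases c
    · left; simp [ones]
    · right; simp [zeros]
  · obtain ⟨g, hg, h⟩ := dense_and hc hne
    exact ⟨g, hg, Or.inl ((hs m P hP _ h).trans (by omega))⟩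
  · obtain ⟨g, hg, h⟩ := dense_or hc hne
    exact ⟨g, hg, Or.inr ((hs m P hP _ h).trans (by omega))⟩
  · rcases family P N with ⟨V, hVc, hV⟩ | ⟨V, A, -, hA, hAc, -⟩
    · obtain ⟨g, hg, s, h1, h2⟩ := dense_maj hc hne V hV
      refine ⟨g, hg, Or.inl ?_⟩
      have := hs m P hP _ h2
      omega
    · exfalso
      have h1 : P.ncard ≤ A.card := by
        rw [← Set.ncard_coe_finset]
        exact Set.ncard_le_ncard (fun g hg => hA g hg) (Set.toFinite _)
      have h2 : (A.card : ℝ) * 4 ^ N ≤ 3 ^ N * 2 ^ m := by exact_mod_cast hAc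
      have h3 : (P.ncard : ℝ) ≤ A.card := by exact_mod_cast h1
      have h4 : (A.card : ℝ) ≤ (3 / 4) ^ N * 2 ^ m := by
        rw [div_pow, div_mul_eq_mul_div, le_div_iff₀ (by positivity)]
        exact h2
      have h5 : (3 / 4 : ℝ) ^ N * 2 ^ m < δ * 2 ^ m := mul_lt_mul_of_pos_right hN (by positivity)
      linarith
  · obtain ⟨g, hg, h⟩ := dense_min hc hne
    exact ⟨g, hg, Or.inl ((hs m P hP _ h).trans (by omega))⟩

end Pool.Agent.Helper74.PC
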